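import Pool.Agent.U199.SQ.Final

universe u

namespace Pool.Agent.Results.MP_63fcef_ag.StrangeQuadric

open MvPolynomial Pool.Agent.U199.SQ

/-- **A negative answer to Q1.** Let `k` be an algebraically closed field of characteristic two and
let `X ⊆ P^4` be the projective variety over `k` with generic point
`η = quadPoint k = (c : 1 : c^2 + a b : a : b)` over the field `K = k(a, b, c)`.

1. `K` is the function field of `X`, the forms vanishing on `X` are the multiples of
   `q = x_0^2 + x_1 x_2 + x_3 x_4`, and the points of `X` are the zeros of `q`: so `X` is the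
   (irreducible and reduced) quadric threefold `q = 0`; it has dimension three, and it is smooth,
   the gradient of `q` vanishing at none of its points.
2. There is a morphism `φ` from the very ample line bundle `O_X(1)` to the tangent bundle `T_X`
   which is nonzero at every point of `X`: it is a `K`-linear map of the generic stalks mapping
   the stalk of `O_X(1)` at each point `x` into that of `T_X`, and at each `x` some `φ(s)` maps some
   function regular at `x` to `1`.
3. `X` is isomorphic to no projective space `P^n`. -/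
theorem result (k : Type u) [Field k] [IsAlgClosed k] [CharP k 2] :
    ((∀ f : FractionRing (MvPolynomial (Fin 3) k), ∃ (d : ℕ) (F G : MvPolynomial (Fin 5) k),
        F.IsHomogeneous d ∧ G.IsHomogeneous d ∧ aeval (quadPoint k) G ≠ 0 ∧
          f = aeval (quadPoint k) F / aeval (quadPoint k) G) ∧
      (∀ (d : ℕ) (G : MvPolynomial (Fin 5) k), G.IsHomogeneous d →
        (aeval (quadPoint k) G = 0 ↔ quad k ∣ G)) ∧
      (∀ x : Fin 5 → k, IsPoint (quadPoint k) x ↔ x ≠ 0 ∧ aeval x (quad k) = 0) ∧
      Algebra.trdeg k (FractionRing (MvPolynomial (Fin 3) k)) = 3 ∧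
      (∀ x : Fin 5 → k, IsPoint (quadPoint k) x → ∃ i, aeval x (pderiv i (quad k)) ≠ 0)) ∧
    (∃ φ : FractionRing (MvPolynomial (Fin 3) k) →ₗ[FractionRing (MvPolynomial (Fin 3) k)]
        Derivation k (FractionRing (MvPolynomial (Fin 3) k))
          (FractionRing (MvPolynomial (Fin 3) k)),
      (∀ x : Fin 5 → k, IsPoint (quadPoint k) x →
        ∀ s ∈ stalk (quadPoint k) 1 x, φ s ∈ tangentStalk (quadPoint k) x) ∧
      (∀ x : Fin 5 → k, IsPoint (quadPoint k) x →
        ∃ s ∈ stalk (quadPoint k) 1 x, ∃ f ∈ stalk (quadPoint k) 0 x, φ s f = 1)) ∧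
    (∀ n : ℕ, ¬ AreIsomorphic k (quadPoint k) (projPoint k n)) :=
  ⟨⟨quad_gen, fun _ _ hG => quad_ideal hG, quad_point, ratfield_trdeg 3,
    fun x hx => quad_smooth x hx.1 ((quad_point x).1 hx).2⟩, quad_map, quad_not_iso_all⟩

end Pool.Agent.Results.MP_63fcef_ag.StrangeQuadric
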